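import Pool.Agent.H87.BU

set_option autoImplicit false

namespace Pool.Agent.Results.MP_cd8fef_an.FreeInf

open Filter Topology BoundedContinuousFunction
open scoped ComplexOrder

section defs

variable (X : Type) [TopologicalSpace X] [CompactSpace X]

/-- The algebra of bounded sequences in C(X). -/
abbrev Linf : Type := ℕ →ᵇ C(X, ℂ)

/-- The ideal of sequences tending to zero in norm. -/
def c0 : Ideal (Linf X) where
  carrier := {s | Tendsto (fun n => s n) atTop (𝓝 0)}
  add_mem' := fun {a b} ha hb => by simpa using Tendsto.add ha hb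
  zero_mem' := by simp
  smul_mem' := fun c s hs => by
    refine squeeze_zero_norm (a := fun n => ‖c‖ * ‖s n‖) (fun n => ?_) ?_
    · exact (norm_mul_le (c n) (s n)).trans
        (mul_le_mul_of_nonneg_right (c.norm_coe_le_norm n) (norm_nonneg _))
    · simpa using (tendsto_zero_iff_norm_tendsto_zero.1 hs).const_mul ‖c‖

/-- The sequence algebra of C(X). -/
abbrev Ainf : Type := Linf X ⧸ c0 X

variable {X} {G : Type} [Group G] [MulAction G X] [ContinuousConstSMul G X]

/-- The action on C(X): f goes to x ↦ f (g⁻¹ • x). -/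
noncomputable def al (g : G) (f : C(X, ℂ)) : C(X, ℂ) := f.comp ⟨fun x => g⁻¹ • x, continuous_const_smul _⟩

theorem al_norm (g : G) (f : C(X, ℂ)) : ‖al g f‖ ≤ ‖f‖ :=
  (ContinuousMap.norm_le _ (norm_nonneg _)).2 fun _ => f.norm_coe_le_norm _

/-- The termwise action on bounded sequences. -/
noncomputable def alL (g : G) : Linf X →+* Linf X where
  toFun s := ofNormedAddCommGroupDiscrete (fun n => al g (s n)) ‖s‖
    fun n => (al_norm g _).trans (s.norm_coe_le_norm n)
  map_one' := rfl
  map_mul' _ _ := rfl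
  map_zero' := rfl
  map_add' _ _ := rfl

/-- The induced action on the sequence algebra. -/
noncomputable def alInf (g : G) : Ainf X →+* Ainf X :=
  Ideal.quotientMap (c0 X) (alL g) fun s hs =>
    squeeze_zero_norm (a := fun n => ‖s n‖) (fun n => al_norm g (s n))
      (tendsto_zero_iff_norm_tendsto_zero.1 hs)

end defs

/-- There are d+1 linear, orthogonality preserving (order zero), equivariant maps from C(G)
(left translation action) to the sequence algebra of C(X) whose values at 1 add up to 1. -/
def Towers (G X : Type) [Group G] [TopologicalSpace G] [IsTopologicalGroup G] [CompactSpace G]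
    [TopologicalSpace X] [CompactSpace X] [MulAction G X] [ContinuousSMul G X] (d : ℕ) : Prop :=
  ∃ φ : Fin (d + 1) → (C(G, ℂ) →ₗ[ℂ] Ainf X),
    (∀ j (f f' : C(G, ℂ)), (∀ h, 0 ≤ f h) → (∀ h, 0 ≤ f' h) → f * f' = 0 → φ j f * φ j f' = 0) ∧
    (∀ j (g : G) (f : C(G, ℂ)), φ j (al g f) = alInf g (φ j f)) ∧ ∑ j, φ j 1 = 1

def S (n : ℕ) : Type := {x : Fin (n + 1) → ℝ // ∑ i, |x i| = 1}

instance (n : ℕ) : TopologicalSpace (S n) := instTopologicalSpaceSubtype
instance (n : ℕ) : T2Space (S n) := inferInstanceAs (T2Space (Subtype _))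
instance (n : ℕ) : SecondCountableTopology (S n) :=
  inferInstanceAs (SecondCountableTopology {x : Fin (n + 1) → ℝ // ∑ i, |x i| = 1})
instance (n : ℕ) : CompactSpace (S n) := by
  refine isCompact_iff_compactSpace.1 (?_ : IsCompact {x : Fin (n + 1) → ℝ | ∑ i, |x i| = 1})
  refine (isCompact_closedBall (0 : Fin (n + 1) → ℝ) 1).of_isClosed_subset
    (isClosed_eq (by fun_prop) continuous_const) fun x hx => ?_
  rw [mem_closedBall_zero_iff, pi_norm_le_iff_of_nonneg zero_le_one]
  intro i
  rw [← (hx : ∑ i, |x i| = 1)]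
  exact Finset.single_le_sum (f := fun i => |x i|) (fun _ _ => abs_nonneg _) (Finset.mem_univ i)

theorem absu (u : ℤˣ) : |((u : ℤ) : ℝ)| = 1 := by
  rcases Int.units_eq_one_or u with h | h <;> simp [h]

abbrev GG : Type := ℕ → ℤˣ
abbrev XX : Type := ∀ n, S n

instance : MulAction GG XX where
  smul g x := fun n => ⟨fun i => ((g n : ℤ) : ℝ) * (x n).1 i, by
    simp only [abs_mul, absu, one_mul]; exact (x n).2⟩
  one_smul x := by
    funext n; apply Subtype.ext; funext i
    show (((1 : ℤˣ) : ℤ) : ℝ) * (x n).1 i = _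
    simp
  mul_smul g h x := by
    funext n; apply Subtype.ext; funext i
    show (((g n * h n : ℤˣ) : ℤ) : ℝ) * (x n).1 i =
      ((g n : ℤ) : ℝ) * (((h n : ℤ) : ℝ) * (x n).1 i)
    push_cast; ring

theorem smul_def (g : GG) (x : XX) (n : ℕ) (i : Fin (n + 1)) :
    ((g • x) n).1 i = ((g n : ℤ) : ℝ) * (x n).1 i := rfl

theorem cval {R : Type} [TopologicalSpace R] (c : ℤ → R) (n : ℕ) :
    Continuous fun g : GG => c (g n : ℤ) :=
  continuous_of_discreteTopology.comp (Units.continuous_val.comp (continuous_apply n))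

instance : ContinuousSMul GG XX where
  continuous_smul := by
    refine continuous_pi fun n => Continuous.subtype_mk (continuous_pi fun i => ?_) _
    refine ((cval (fun z => (z : ℝ)) n).comp continuous_fst).mul ?_
    exact (continuous_apply i).comp (continuous_subtype_val.comp
      ((continuous_apply n).comp continuous_snd))

theorem result : ∃ (G X : Type) (_ : Group G) (_ : TopologicalSpace G) (_ : IsTopologicalGroup G)
    (_ : CompactSpace G) (_ : T2Space G) (_ : SecondCountableTopology G)
    (_ : TopologicalSpace X) (_ : CompactSpace X) (_ : T2Space X) (_ : SecondCountableTopology X)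
    (_ : MulAction G X) (_ : ContinuousSMul G X),
    (∀ (g : G) (x : X), g • x = x → g = 1) ∧ ∀ d, ¬ Towers G X d := by
  classical
  refine ⟨GG, XX, inferInstance, inferInstance, inferInstance, inferInstance, inferInstance,
    inferInstance, inferInstance, inferInstance, inferInstance, inferInstance, inferInstance,
    inferInstance, fun g x h => ?_, fun d ⟨φ, h0, he, h1⟩ => ?_⟩
  · funext n
    rcases Int.units_eq_one_or (g n) with hg | hg
    · exact hg
    · exfalso
      have h2 := (x n).2
      rw [Finset.sum_eq_zero] at h2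
      · exact zero_ne_one h2
      · intro i _
        have := smul_def g x n i
        rw [h, hg] at this
        simp only [Units.val_neg, Units.val_one, Int.cast_neg, Int.cast_one] at this
        rw [abs_eq_zero]; linarith
  set n := Module.finrank ℝ (Fin (d + 1) → ℂ) with hn
  let e : (Fin (d + 1) → ℂ) ≃L[ℝ] (Fin n → ℝ) := ContinuousLinearEquiv.ofFinrankEq (by simp [hn])
  let g0 : GG := Function.update 1 n (-1)
  have hg0 : g0⁻¹ = g0 := by
    funext k; simp
  let p : C(GG, ℂ) := ⟨fun h => (1 + ((h n : ℤ) : ℂ)) / 2,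
    (continuous_const.add (cval (fun z => (z : ℂ)) n)).div_const _⟩
  have hp : ∀ h, 0 ≤ p h := fun h => by
    rcases Int.units_eq_one_or (h n) with hh | hh <;> simp [p, hh]
  have hq : ∀ h, al g0 p h = (1 - ((h n : ℤ) : ℂ)) / 2 := fun h => by
    simp [al, p, hg0, g0, sub_eq_add_neg]
  have hpq : p * al g0 p = 0 := by
    ext h
    rw [ContinuousMap.mul_apply, hq]
    rcases Int.units_eq_one_or (h n) with hh | hh <;> simp [p, hh]
  have hsum : p + al g0 p = 1 := by
    ext h
    rw [ContinuousMap.add_apply, hq]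
    simp only [p, ContinuousMap.coe_mk, ContinuousMap.one_apply]; ring
  choose s hs using fun j => Ideal.Quotient.mk_surjective (φ j p)
  have hs' : ∀ j, φ j (al g0 p) = Ideal.Quotient.mk _ (alL g0 (s j)) := fun j => by
    rw [he, ← hs]; rfl
  have A : ∀ j, s j * alL g0 (s j) ∈ c0 XX := fun j => by
    rw [← Ideal.Quotient.eq_zero_iff_mem, map_mul, hs, ← hs']
    exact h0 j _ _ hp (fun h => hp _) hpq
  have B : ∑ j, (s j + alL g0 (s j)) - 1 ∈ c0 XX := by
    rw [← Ideal.Quotient.eq_zero_iff_mem, map_sub, map_sum, map_one, ← h1, sub_eq_zero]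
    refine Finset.sum_congr rfl fun j _ => ?_
    rw [map_add, hs, ← hs', ← map_add, hsum]
  set η : ℝ := 1 / (4 * (d + 1)) with hη
  have hη0 : 0 < η := by positivity
  have A' : ∀ᶠ m in atTop, ∀ j, ‖(s j * alL g0 (s j)) m‖ < η ^ 2 :=
    eventually_all.2 fun j => (tendsto_zero_iff_norm_tendsto_zero.1 (A j)).eventually
      (gt_mem_nhds (by positivity))
  have B' : ∀ᶠ m in atTop, ‖(∑ j, (s j + alL g0 (s j)) - 1) m‖ < 1 / 2 :=
    (tendsto_zero_iff_norm_tendsto_zero.1 B).eventually (gt_mem_nhds (by norm_num))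
  obtain ⟨m, hA, hB⟩ := (A'.and B').exists
  let x0 : XX := fun k => ⟨Pi.single 0 1, by simp [Fin.sum_univ_succ]⟩
  let ι : S n → XX := fun y => Function.update x0 n y
  have hι : Continuous ι := continuous_const.update n continuous_id
  let F : XX → Fin (d + 1) → ℂ := fun x j => s j m x - s j m (g0 • x)
  have hF : Continuous F := continuous_pi fun j =>
    (s j m).continuous.sub ((s j m).continuous.comp (continuous_const_smul g0))
  have hneg : ∀ (y : Fin (n + 1) → ℝ) (hy : ∑ i, |y i| = 1) (hy' : ∑ i, |(-y) i| = 1),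
      ι ⟨-y, hy'⟩ = g0 • ι ⟨y, hy⟩ := by
    intro y hy hy'
    funext k; apply Subtype.ext; funext i
    rw [smul_def]
    by_cases hk : k = n
    · subst hk; simp [ι, g0]
    · simp [ι, g0, Function.update_of_ne hk]
  have hgg : ∀ x : XX, g0 • g0 • x = x := fun x => by
    nth_rewrite 1 [← hg0]; exact inv_smul_smul g0 x
  obtain ⟨y, hy, hz⟩ := Pool.Agent.H87.BU.bu n
    (fun y => if hy : ∑ i, |y i| = 1 then e (F (ι ⟨y, hy⟩)) else 0) (by
      rw [continuousOn_iff_continuous_domRestrict]
      refine (e.continuous.comp (hF.comp hι)).congr fun y => ?_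
      have hy : ∑ i, |y.1 i| = 1 := y.2
      show _ = dite _ _ _
      rw [dif_pos hy]; rfl) (by
      intro y
      by_cases hy : ∑ i, |y i| = 1
      · have hy' : ∑ i, |(-y) i| = 1 := by simpa using hy
        rw [dif_pos hy, dif_pos hy', hneg y hy hy', ← map_neg]
        congr 1; funext j
        simp [F, hgg]
      · have hy' : ¬ ∑ i, |(-y) i| = 1 := by simpa using hy
        rw [dif_neg hy, dif_neg hy', neg_zero])
  rw [dif_pos hy, map_eq_zero_iff e e.injective] at hz
  set x := ι ⟨y, hy⟩
  have hx : ∀ j, alL g0 (s j) m x = s j m x := fun j => by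
    have := sub_eq_zero.1 (congrFun hz j)
    show s j m (g0⁻¹ • x) = _
    rw [hg0, this]
  have hu : ∀ j, ‖s j m x‖ ≤ η := fun j => by
    have := ((s j * alL g0 (s j)) m).norm_coe_le_norm x
    have h2 : ((s j * alL g0 (s j)) m) x = s j m x * s j m x := by
      show s j m x * alL g0 (s j) m x = _
      rw [hx]
    rw [h2, norm_mul] at this
    have h3 := this.trans_lt (hA j)
    by_contra hc
    push Not at hc
    nlinarith
  have h4 := (((∑ j, (s j + alL g0 (s j)) - 1) m).norm_coe_le_norm x).trans_lt hB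
  have h5 : ((∑ j, (s j + alL g0 (s j)) - 1) m) x = ∑ j, (s j m x + s j m x) - 1 := by
    simp [hx]
  rw [h5] at h4
  have h6 : ‖∑ j, (s j m x + s j m x)‖ ≤ 1 / 2 := by
    refine (norm_sum_le _ _).trans ?_
    refine (Finset.sum_le_sum fun j _ => (norm_add_le _ _).trans (add_le_add (hu j) (hu j))).trans ?_
    simp only [Finset.sum_const, Finset.card_univ, Fintype.card_fin, nsmul_eq_mul, hη]
    push_cast
    field_simp
    norm_num
  have h7 := norm_sub_norm_le (1 : ℂ) (∑ j, (s j m x + s j m x))
  rw [norm_sub_rev, norm_one] at h7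
  linarith

end Pool.Agent.Results.MP_cd8fef_an.FreeInf
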